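import Pool.Agent.W209.KT.Stm

/-!
# KT-EX: existence of the array
-/

set_option autoImplicit false

open Filter MeasureTheory

namespace Pool.Agent.W457.KT

open Pool.Agent.W209.KT

theorem near (q : ℕ) (hq : q.Prime) (n : ℕ) (y : ℝ) :
    ∃ s : ℤ, |(s : ℝ) - y| ≤ 3 / 2 ∧ IsCoprime s ((q ^ n : ℕ) : ℤ) := by
  have hr : |y - (round y : ℝ)| ≤ 1 / 2 := abs_sub_round y
  have hq' : Prime (q : ℤ) := Nat.prime_iff_prime_int.1 hq
  have key : ∀ s : ℤ, ¬ (q : ℤ) ∣ s → IsCoprime s ((q ^ n : ℕ) : ℤ) := by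
    intro s hs
    push_cast
    apply IsCoprime.pow_right
    exact ((Prime.coprime_iff_not_dvd hq').2 hs).symm
  by_cases h : (q : ℤ) ∣ round y
  · refine ⟨round y + 1, ?_, key _ ?_⟩
    · push_cast
      rw [abs_le] at hr ⊢
      constructor <;> linarith [hr.1, hr.2]
    · intro h1
      have : (q : ℤ) ∣ 1 := (Int.dvd_add_right h).1 h1
      exact hq'.not_isUnit (isUnit_of_dvd_one this)
  · refine ⟨round y, ?_, key _ h⟩
    rw [abs_sub_comm]
    linarith

theorem p_pow (k : ℕ) (j : Fin 2) : ∃ q n : ℕ, q.Prime ∧ p k j = q ^ n := by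
  unfold p
  split_ifs
  · exact ⟨2, _, Nat.prime_two, rfl⟩
  · exact ⟨3, _, Nat.prime_three, rfl⟩

theorem D_le_p (k : ℕ) (j : Fin 2) : (D k : ℝ) ≤ 3 * p k j := by
  have : D k ≤ 3 * p k j := by
    unfold p
    split_ifs
    · omega
    · unfold E
      have := Nat.lt_pow_succ_log_self (b := 3) (by norm_num) (D k)
      rw [pow_succ] at this
      omega
  exact_mod_cast this

theorem D_ge (k : ℕ) : (2 : ℝ) ^ (1000 * (k + 1)) ≤ D k := by
  unfold D
  push_cast
  apply pow_le_pow_right₀ (by norm_num)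
  apply Nat.mul_le_mul_left
  exact Nat.lt_pow_self (by norm_num)

theorem D_succ (k : ℕ) : (D (k + 1) : ℝ) = (D k : ℝ) ^ 36 := by
  unfold D
  push_cast
  rw [← pow_mul, pow_succ, mul_assoc]

theorem D_big (k : ℕ) : (1000 : ℝ) ≤ D k := by
  refine le_trans ?_ (D_ge k)
  calc (1000 : ℝ) ≤ 2 ^ 10 := by norm_num
    _ ≤ 2 ^ (1000 * (k + 1)) := pow_le_pow_right₀ (by norm_num) (by omega)

theorem c_bd (k : ℕ) (hu : 1 ≤ u k ∧ u k ≤ 2) (j : Fin 2) (l : Fin 11) :
    |v j / (F k * p k j) * g (u k) l| ≤ 1 / (D k : ℝ) ^ 2 := by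
  have hD : (2 : ℝ) ^ (33 * (k + 1)) ≤ D k :=
    (pow_le_pow_right₀ (by norm_num) (by omega)).trans (D_ge k)
  have hD1 : (1 : ℝ) ≤ D k := by linarith [D_big k]
  have hD0 : (0 : ℝ) < D k := by linarith
  have hlev : lev k ≤ k + 1 := Nat.log_le_self 256 (k + 1)
  have hv : |v j| ≤ 2 := by
    unfold v
    split_ifs
    · norm_num
    · rw [abs_of_nonneg (Real.sqrt_nonneg 2)]
      exact Real.sqrt_le_iff.2 ⟨by norm_num, by norm_num⟩
  have hg : |g (u k) l| ≤ 2 ^ 18 := by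
    unfold g
    rw [abs_mul, abs_pow, abs_neg, abs_of_nonneg (by linarith [hu.1] : 0 ≤ u k), Nat.abs_cast]
    have h1 : ((Nat.choose 10 l.1 : ℕ) : ℝ) ≤ 252 := by
      have : ∀ l : Fin 11, Nat.choose 10 l.1 ≤ 252 := by decide
      exact_mod_cast this l
    have h2 : (u k) ^ (10 - l.1) ≤ 2 ^ 10 :=
      (pow_le_pow_left₀ (by linarith [hu.1]) hu.2 _).trans
        (pow_le_pow_right₀ (by norm_num) (by omega))
    have h3 : 0 ≤ (u k) ^ (10 - l.1) := pow_nonneg (by linarith [hu.1]) _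
    calc _ ≤ (252 : ℝ) * 2 ^ 10 := mul_le_mul h1 h2 h3 (by norm_num)
      _ ≤ 2 ^ 18 := by norm_num
  have hp := D_le_p k j
  have hP0 : (0 : ℝ) < 2 ^ (12 * lev k) := by positivity
  have hP : 2 ^ 21 * (2 : ℝ) ^ (12 * lev k) ≤ D k := by
    rw [← pow_add]
    exact (pow_le_pow_right₀ (by norm_num) (by omega)).trans hD
  have hFp : 2 ^ 19 * (D k : ℝ) ^ 2 ≤ F k * p k j := by
    unfold F
    generalize (2 : ℝ) ^ (12 * lev k) = P at hP hP0 ⊢
    generalize (D k : ℝ) = d at hP hp hD1 hD0 ⊢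
    generalize ((p k j : ℕ) : ℝ) = r at hp ⊢
    rw [div_mul_eq_mul_div, le_div_iff₀ hP0]
    have e1 : 2 ^ 19 * d ^ 2 * P ≤ d ^ 2 * (d / 4) := by
      have : 0 ≤ d ^ 2 * (d / 4 - 2 ^ 19 * P) := mul_nonneg (by positivity) (by linarith)
      linarith
    have e2 : d ^ 2 * (d / 4) ≤ d ^ 12 * (d / 3) :=
      mul_le_mul (pow_le_pow_right₀ hD1 (by norm_num)) (by linarith) (by positivity) (by positivity)
    have e3 : d ^ 12 * (d / 3) ≤ d ^ 12 * r :=
      mul_le_mul_of_nonneg_left (by linarith) (by positivity)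
    linarith
  have hFp0 : 0 < F k * p k j := lt_of_lt_of_le (by positivity) hFp
  rw [abs_mul, abs_div, abs_of_pos hFp0, div_mul_eq_mul_div, div_le_div_iff₀ hFp0 (by positivity)]
  have : |v j| * |g (u k) l| ≤ 2 * 2 ^ 18 := mul_le_mul hv hg (abs_nonneg _) (by norm_num)
  nlinarith [sq_nonneg (D k : ℝ)]

theorem ex (h : S_cov) : S_ex := by
  have hc := fun k j l => c_bd k (h.2.1 k) j l
  have H : ∀ (j : Fin 2) (l : Fin 11), ∃ s : ℕ → ℤ, s 0 = 1 ∧ ∀ k,
      |(s (k + 1) : ℝ) - p (k + 1) j * (s k / p k j + v j / (F k * p k j) * g (u k) l)| ≤ 3 / 2 ∧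
        IsCoprime (s (k + 1)) (p (k + 1) j : ℤ) := by
    intro j l
    have step : ∀ (k : ℕ) (a : ℤ), ∃ b : ℤ,
        |(b : ℝ) - p (k + 1) j * (a / p k j + v j / (F k * p k j) * g (u k) l)| ≤ 3 / 2 ∧
          IsCoprime b (p (k + 1) j : ℤ) := by
      intro k a
      obtain ⟨q, n, hq, hp⟩ := p_pow (k + 1) j
      obtain ⟨b, h1, h2⟩ := near q hq n
        (p (k + 1) j * (a / p k j + v j / (F k * p k j) * g (u k) l))
      exact ⟨b, h1, by rw [hp]; exact h2⟩
    choose f hf using step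
    exact ⟨fun k => Nat.rec 1 f k, rfl, fun k => hf k _⟩
  choose s hs0 hs using H
  have hp0 : ∀ k j, (0 : ℝ) < p k j := fun k j => by
    have := D_le_p k j
    have := D_big k
    linarith
  have hx : ∀ j l k, |(s j l (k + 1) : ℝ) / p (k + 1) j - s j l k / p k j -
      v j / (F k * p k j) * g (u k) l| ≤ 9 / 2 / D (k + 1) := by
    intro j l k
    have h1 := (hs j l k).1
    have h2 := hp0 (k + 1) j
    have h3 := D_le_p (k + 1) j
    have h4 := D_big (k + 1)
    have e : (s j l (k + 1) : ℝ) / p (k + 1) j - s j l k / p k j -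
      v j / (F k * p k j) * g (u k) l = ((s j l (k + 1) : ℝ) -
        p (k + 1) j * (s j l k / p k j + v j / (F k * p k j) * g (u k) l)) / p (k + 1) j := by
      field_simp
      ring
    rw [e, abs_div, abs_of_pos h2, div_le_div_iff₀ h2 (by linarith)]
    nlinarith
  have hD1 : ∀ k, 1000 * (D k : ℝ) ^ 2 ≤ D (k + 1) := by
    intro k
    rw [D_succ]
    have := D_big k
    calc 1000 * (D k : ℝ) ^ 2 ≤ D k * (D k : ℝ) ^ 2 :=
          mul_le_mul_of_nonneg_right this (by positivity)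
      _ = (D k : ℝ) ^ 3 := by ring
      _ ≤ (D k : ℝ) ^ 36 := pow_le_pow_right₀ (by linarith) (by norm_num)
  have hinv : ∀ k, 1 / (D (k + 1) : ℝ) ≤ 1 / 1000 * (1 / (D k : ℝ) ^ 2) := by
    intro k
    have h1 := hD1 k
    have h2 := D_big k
    have h3 := D_big (k + 1)
    rw [one_div_mul_one_div, div_le_div_iff₀ (by linarith) (by positivity)]
    linarith
  have hsq : ∀ k, 1 / (D k : ℝ) ^ 2 ≤ 1 / (D k : ℝ) := by
    intro k
    have h2 := D_big k
    rw [div_le_div_iff₀ (by positivity) (by linarith)]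
    nlinarith
  have hDi : ∀ k, 1 / (D k : ℝ) ≤ 1 / 1000 := by
    intro k
    have h2 := D_big k
    rw [div_le_div_iff₀ (by linarith) (by norm_num)]
    linarith
  have hpos : ∀ k, 0 < 1 / (D k : ℝ) ^ 2 := by
    intro k
    have h2 := D_big k
    positivity
  -- increments
  have hinc : ∀ j l k, |(s j l (k + 1) : ℝ) / p (k + 1) j - s j l k / p k j| ≤
      4 * (1 / (D k : ℝ) ^ 2) - 4 * (1 / (D (k + 1) : ℝ) ^ 2) := by
    intro j l k
    have h1 := hx j l k
    have h2 := hc k j l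
    have h3 := hinv k
    have h4 := hsq (k + 1)
    have h5 := hpos k
    have e : 9 / 2 / (D (k + 1) : ℝ) = 9 / 2 * (1 / (D (k + 1) : ℝ)) := by ring
    rw [e] at h1
    rw [abs_le] at h1 h2 ⊢
    constructor <;> linarith [h1.1, h1.2, h2.1, h2.2]
  have hlim : ∀ j l, ∃ a : ℝ, ∀ k, |a - (s j l k : ℝ) / p k j| ≤ 4 * (1 / (D k : ℝ) ^ 2) := by
    intro j l
    have hm : Monotone fun k => (s j l k : ℝ) / p k j - 4 * (1 / (D k : ℝ) ^ 2) :=
      monotone_nat_of_le_succ fun k => by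
        have := (abs_le.1 (hinc j l k)).1
        linarith
    have ha : Antitone fun k => (s j l k : ℝ) / p k j + 4 * (1 / (D k : ℝ) ^ 2) :=
      antitone_nat_of_succ_le fun k => by
        have := (abs_le.1 (hinc j l k)).2
        linarith
    have hle : (fun k => (s j l k : ℝ) / p k j - 4 * (1 / (D k : ℝ) ^ 2)) ≤
        fun k => (s j l k : ℝ) / p k j + 4 * (1 / (D k : ℝ) ^ 2) := fun k => by
      have := hpos k
      simp only
      linarith
    have := Monotone.ciSup_mem_iInter_Icc_of_antitone hm ha hle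
    refine ⟨⨆ k, ((s j l k : ℝ) / p k j - 4 * (1 / (D k : ℝ) ^ 2)), fun k => ?_⟩
    · have h1 := Set.mem_iInter.1 this k
      rw [Set.mem_Icc] at h1
      rw [abs_le]
      constructor <;> linarith [h1.1, h1.2]
  choose A hA using hlim
  have hA1 : ∀ j l, |A j l| ≤ 1 := by
    intro j l
    have h1 := hA j l 0
    have h2 := hsq 0
    have h3 := hDi 0
    have h4 : |(s j l 0 : ℝ) / p 0 j| ≤ 3 / 1000 := by
      rw [hs0 j l]
      have h5 := hp0 0 j
      have h6 := D_le_p 0 j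
      have h7 := D_big 0
      rw [abs_div, abs_of_pos h5, div_le_div_iff₀ h5 (by norm_num)]
      simp
      linarith
    rw [abs_le] at h1 h4 ⊢
    constructor <;> linarith [h1.1, h1.2, h4.1, h4.2]
  refine ⟨A, fun k j l => s j l k, hA1, ?_, ?_, ?_⟩
  · intro k j l
    have h1 := hA j l k
    have h2 := hsq k
    have h3 := hDi k
    have h4 := hA1 j l
    have h5 := hp0 k j
    have h6 : |(s j l k : ℝ) / p k j| ≤ 2 := by
      rw [abs_le] at h1 h4 ⊢
      constructor <;> linarith [h1.1, h1.2, h4.1, h4.2]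
    rwa [abs_div, abs_of_pos h5, div_le_iff₀ h5] at h6
  · intro k j
    cases k with
    | zero => show IsCoprime (s j 10 0) _; rw [hs0]; exact isCoprime_one_left
    | succ k => exact (hs j 10 k).2
  · intro k j l
    have h1 := hA j l (k + 1)
    have h2 := hx j l k
    have h3 := hsq (k + 1)
    have h4 : (0 : ℝ) < 1 / D (k + 1) := by
      have := D_big (k + 1)
      positivity
    have e : 9 / 2 / (D (k + 1) : ℝ) = 9 / 2 * (1 / (D (k + 1) : ℝ)) := by ring
    rw [e] at h2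
    have e2 : 20 / (D k : ℝ) ^ 36 = 20 * (1 / (D (k + 1) : ℝ)) := by
      rw [D_succ]
      ring
    rw [e2]
    rw [abs_le] at h1 h2 ⊢
    constructor <;> linarith [h1.1, h1.2, h2.1, h2.2]

end Pool.Agent.W457.KT
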